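import Mathlib
import Pool.Agent.H.MP_39588e_an.A

namespace Pool.Agent.Results.MP_39588e_an.No

open MvPowerSeries Filter Topology Pool.Agent.H.MP_39588e_an

/-- the topology t is given by an increasing sequence of submultiplicative seminorms, is Hausdorff
and is complete -/
def IsFrechet (B : Type) [CommRing B] [Algebra ℂ B] (t : TopologicalSpace B) : Prop :=
  ∃ q : ℕ → Seminorm ℂ B, Monotone q ∧ (∀ m f g, q m (f * g) ≤ q m f * q m g) ∧
    @WithSeminorms ℂ B ℕ _ _ _ q t ∧ (∀ f, (∀ m, q m f = 0) → f = 0) ∧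
    ∀ u : ℕ → B, (∀ m, ∀ ε > 0, ∃ N, ∀ i ≥ N, ∀ j ≥ N, q m (u i - u j) < ε) →
      ∃ f, ∀ m, Tendsto (fun n => q m (u n - f)) atTop (𝓝 0)

/-- formal power series in countably many variables -/
abbrev Finf : Type := MvPowerSeries ℕ ℂ

/-- a Frechet algebra of power series -/
def FrAPS (B : Subalgebra ℂ Finf) (t : TopologicalSpace B) : Prop :=
  IsFrechet B t ∧ (∀ i, X i ∈ B) ∧
    ∀ r : ℕ →₀ ℕ, Continuous[t, inferInstance] fun f : B => (coeff r (f : Finf) : ℂ)

theorem result : ∃ (B : Subalgebra ℂ Finf) (t t' : TopologicalSpace B),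
    B ≠ ⊤ ∧ FrAPS B t ∧ IsFrechet B t' ∧ t' ≠ t := by
  obtain ⟨D, h, hD⟩ := ex_D
  let T : A →ₗ[ℂ] A := (thl D).restrict (p := A.toSubmodule) (q := A.toSubmodule) th_mem
  let T' : A →ₗ[ℂ] A := (thl (-D)).restrict (p := A.toSubmodule) (q := A.toSubmodule) th_mem
  have i1 : ∀ f, T' (T f) = f := fun f => Subtype.ext (h.inv f)
  have i2 : ∀ f, T (T' f) = f := fun f => Subtype.ext (by
    have := h.neg.inv f
    rwa [neg_neg] at this)
  have hm : ∀ f g, T (f * g) = T f * T g := fun f g => Subtype.ext (h.mul f g)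
  have sep : ∀ f : A, (∀ m, p m f = 0) → f = 0 := fun f hf => Subtype.ext (MvPowerSeries.ext
    fun r => by
      obtain ⟨m, hr⟩ := L_ex r
      exact norm_le_zero_iff.1 ((p_co hr f).trans (hf m).le))
  have xm : ∀ i, X i ∈ A := fun i m => s_mon m _ 1
  let q : SeminormFamily ℂ A ℕ := fun m => (p m).comp T
  let p' : SeminormFamily ℂ A ℕ := p
  refine ⟨A, p'.moduleFilterBasis.topology, q.moduleFilterBasis.topology, A_ne,
    ⟨⟨p, p_mono, p_mul, @WithSeminorms.mk _ _ _ _ _ _ _ (_) rfl, sep, p_cpl⟩, xm, fun r => ?_⟩,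
    ⟨q, fun m n l f => p_mono l (T f), fun m f g => ?_, @WithSeminorms.mk _ _ _ _ _ _ _ (_) rfl,
      fun f hf => ?_, fun u hu => ?_⟩,
    fun e => ?_⟩
  · let _ := p'.moduleFilterBasis.topology
    have hp : WithSeminorms p' := ⟨rfl⟩
    have := hp.topologicalAddGroup
    obtain ⟨m, hr⟩ := L_ex r
    exact hp.continuous_normedSpace_rng ℂ (coeff r ∘ₗ A.val.toLinearMap)
      ⟨{m}, 1, fun f => by simpa using p_co hr f⟩
  · simpa only [q, Seminorm.comp_apply, hm] using p_mul m (T f) (T g)
  · rw [← i1 f, sep (T f) hf, map_zero]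
  · obtain ⟨f, hf⟩ := p_cpl (fun n => T (u n)) (by simpa only [q, Seminorm.comp_apply, map_sub] using hu)
    exact ⟨T' f, by simpa only [q, Seminorm.comp_apply, map_sub, i2] using hf⟩
  · let _ := p'.moduleFilterBasis.topology
    have hp : WithSeminorms p' := ⟨rfl⟩
    have hq : WithSeminorms q := ⟨e.symm⟩
    have a1 : Tendsto (fun n => (⟨X n, xm n⟩ : A)) atTop (𝓝 0) := (hp.tendsto_nhds _ _).2
      fun m ε ε0 => (eventually_ge_atTop (m + 2)).mono fun n hn => by
        have : a m (X n) = fun _ => 0 := funext fun r => by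
          by_cases c : r ∈ L m
          · rw [a, Set.indicator_of_mem c, coeff_X, if_neg, norm_zero]
            rintro rfl
            rcases c with c | c
            · simpa [show ¬ n < m by omega] using c n
            · simpa using c n (by omega)
          · exact Set.indicator_of_notMem c _
        rw [sub_zero]
        show ∑' r, a m (X n) r < ε
        rwa [this, tsum_zero]
    obtain ⟨n, h1, h2⟩ := (((hq.tendsto_nhds _ _).1 a1 1 1 one_pos).and
      (eventually_gt_atTop 0)).exists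
    have c : Finsupp.single 0 1 ∈ L 1 := Or.inl fun i => by
      by_cases i = 0 <;> simp [*]
    refine absurd ((p_co c _).trans_lt h1) ?_
    rw [sub_zero]
    show ¬ ‖coeff _ (th D (X n))‖ < 1
    simp [co_th, Finset.sum_range_succ, hD n h2, coeff_X, Finsupp.single_eq_single_iff, h2.ne]

end Pool.Agent.Results.MP_39588e_an.No
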